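import Pool.Agent.Helper37.OF.St

/-!
# Project OF (MP_121524_al), module FIN: the theorem
-/

set_option autoImplicit false

namespace Pool.Agent.Helper47.OF

open Pool.Agent.Helper37.OF Monoid Pool.Agent.Helper4.FS

universe u v w x y z

private theorem kill {G : Type y} {W : Type z} [Group G] [Group W] (Φ : G →* W) (r : G) (m : ℕ)
    (h : Φ r ^ m = 1) (a : G) (ha : a ∈ Subgroup.normalClosure ({r ^ m} : Set G)) : Φ a = 1 := by
  have h3 : Subgroup.normalClosure ({r ^ m} : Set G) ≤ Φ.ker := by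
    apply Subgroup.normalClosure_le_normal
    rintro _ rfl
    show Φ (r ^ m) = 1
    rw [map_pow, h]
  exact h3 ha

theorem hFIN (hCOR : StCOR.{u, v, w, x}) : StFIN.{u, v, w, x} := by
  intro A B Q _ _ _ _ hord A₀ B₀ l hl m hm πA πB hkill hA hB
  apply sub_gen
  · apply mk_inl_inj
    intro a ha hmem
    by_cases hπ : πA a = 1
    · obtain ⟨k, _, f, g, hf, hGA, hGB⟩ := hA ⟨a, hπ⟩ (fun h => ha (congrArg Subtype.val h))
      obtain ⟨W, _, Φ, h1, -, -, h4, -⟩ := hCOR A₀ B₀ Q hord k m hm πA πB f g l hl hkill hGA hGB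
      exact h4 ⟨a, hπ⟩ hf (kill Φ (wd l) m h1 _ hmem)
    · have h5 := kill (Coprod.lift πA πB) (wd l) m (by rw [hkill, one_pow]) _ hmem
      rw [Coprod.lift_apply_inl] at h5
      exact hπ h5
  · rcases hB with hB | hB
    · exact Or.inl hB
    · refine Or.inr ?_
      apply mk_inr_inj
      intro b hb hmem
      by_cases hπ : πB b = 1
      · obtain ⟨k, _, f, g, hg, hGA, hGB⟩ := hB ⟨b, hπ⟩ (fun h => hb (congrArg Subtype.val h))
        obtain ⟨W, _, Φ, h1, -, -, -, h5⟩ := hCOR A₀ B₀ Q hord k m hm πA πB f g l hl hkill hGA hGB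
        exact h5 ⟨b, hπ⟩ hg (kill Φ (wd l) m h1 _ hmem)
      · have h5 := kill (Coprod.lift πA πB) (wd l) m (by rw [hkill, one_pow]) _ hmem
        rw [Coprod.lift_apply_inr] at h5
        exact hπ h5

end Pool.Agent.Helper47.OF
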